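import Mathlib

set_option autoImplicit false

/-!
Positivity and directed bisimulations on finite neighbourhood frames.
-/

namespace Pool.Agent.Results.MP_5daced_lc.DirectedBisimulation

universe u

/-- Formulas, built from literals (`lit true n` is the variable `n`, `lit false n` its negation)
and constants with conjunction, disjunction, diamond and box. -/
inductive Fml
  | lit (b : Bool) (n : ℕ)
  | bot
  | top
  | and (φ ψ : Fml)
  | or (φ ψ : Fml)
  | dia (φ : Fml)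
  | box (φ : Fml)

/-- The formula is `P`-positive: none of the literals `¬ p`, `p ∈ P`, occurs in it. -/
def Fml.Positive (P : Set ℕ) : Fml → Prop
  | .lit b n => b = true ∨ n ∉ P
  | .bot => True
  | .top => True
  | .and φ ψ => φ.Positive P ∧ ψ.Positive P
  | .or φ ψ => φ.Positive P ∧ ψ.Positive P
  | .dia φ => φ.Positive P
  | .box φ => φ.Positive P

/-- The value of a literal under the valuation `θ`. -/
def litVal {W : Type u} (θ : ℕ → Set W) (b : Bool) (n : ℕ) : Set W :=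
  if b = true then θ n else (θ n)ᶜ

/-- The value of a formula under the valuation `θ` in the neighbourhood frame `(W, D)`. -/
def Fml.val {W : Type u} (D : Set W → Set W) (θ : ℕ → Set W) : Fml → Set W
  | .lit b n => litVal θ b n
  | .bot => ∅
  | .top => Set.univ
  | .and φ ψ => φ.val D θ ∩ ψ.val D θ
  | .or φ ψ => φ.val D θ ∪ ψ.val D θ
  | .dia φ => D (φ.val D θ)
  | .box φ => (D (φ.val D θ)ᶜ)ᶜ

/-- Two formulas are equivalent in the frame `(W, D)`. -/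
def EquivIn {W : Type u} (D : Set W → Set W) (φ ψ : Fml) : Prop :=
  ∀ θ : ℕ → Set W, φ.val D θ = ψ.val D θ

/-- The image of a set under a relation. -/
def img {W₁ W₂ : Type u} (Z : W₁ → W₂ → Prop) (X : Set W₁) : Set W₂ := {w | ∃ v ∈ X, Z v w}

/-- `Z` is a bisimulation between the neighbourhood frames `(W₁, D₁)` and `(W₂, D₂)`. -/
def IsBisimulation {W₁ W₂ : Type u} (D₁ : Set W₁ → Set W₁) (D₂ : Set W₂ → Set W₂)
    (Z : W₁ → W₂ → Prop) : Prop :=
  (∀ X, img Z (D₁ X) ⊆ D₂ (img Z X)) ∧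
    (∀ X, img (fun w v => Z v w) (D₂ X) ⊆ D₁ (img (fun w v => Z v w) X))

/-- `Z` is a `P`-directed bisimulation from the model `(W₁, D₁, θ₁)` to the model
`(W₂, D₂, θ₂)`. -/
def IsDirectedBisimulation (P : Set ℕ) {W₁ W₂ : Type u} (D₁ : Set W₁ → Set W₁)
    (θ₁ : ℕ → Set W₁) (D₂ : Set W₂ → Set W₂) (θ₂ : ℕ → Set W₂) (Z : W₁ → W₂ → Prop) : Prop :=
  IsBisimulation D₁ D₂ Z ∧
    ∀ (b : Bool) (n : ℕ), (b = true ∨ n ∉ P) → img Z (litVal θ₁ b n) ⊆ litVal θ₂ b n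

/-- The value of the formula under the valuation made empty outside `S`. -/
noncomputable def restr (S : Set ℕ) {W : Type u} (θ : ℕ → Set W) (n : ℕ) : Set W :=
  open Classical in if n ∈ S then θ n else ∅

/-- All variables lie in `S`. -/
def Fml.VarsIn (S : Set ℕ) : Fml → Prop
  | .lit _ n => n ∈ S
  | .bot => True
  | .top => True
  | .and φ ψ => φ.VarsIn S ∧ ψ.VarsIn S
  | .or φ ψ => φ.VarsIn S ∧ ψ.VarsIn S
  | .dia φ => φ.VarsIn S
  | .box φ => φ.VarsIn S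

theorem Fml.VarsIn.mono {S T : Set ℕ} (h : S ⊆ T) : ∀ {φ : Fml}, φ.VarsIn S → φ.VarsIn T
  | .lit _ _, h1 => h h1
  | .bot, _ => trivial
  | .top, _ => trivial
  | .and _ _, h1 => ⟨Fml.VarsIn.mono h h1.1, Fml.VarsIn.mono h h1.2⟩
  | .or _ _, h1 => ⟨Fml.VarsIn.mono h h1.1, Fml.VarsIn.mono h h1.2⟩
  | .dia φ, h1 => Fml.VarsIn.mono (φ := φ) h h1
  | .box φ, h1 => Fml.VarsIn.mono (φ := φ) h h1

theorem Fml.exists_varsIn : ∀ φ : Fml, ∃ S : Set ℕ, S.Finite ∧ φ.VarsIn S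
  | .lit _ n => ⟨{n}, Set.finite_singleton n, rfl⟩
  | .bot => ⟨∅, Set.finite_empty, trivial⟩
  | .top => ⟨∅, Set.finite_empty, trivial⟩
  | .and φ ψ => by
    obtain ⟨S, hS, h1⟩ := Fml.exists_varsIn φ
    obtain ⟨T, hT, h2⟩ := Fml.exists_varsIn ψ
    exact ⟨S ∪ T, hS.union hT, h1.mono Set.subset_union_left, h2.mono Set.subset_union_right⟩
  | .or φ ψ => by
    obtain ⟨S, hS, h1⟩ := Fml.exists_varsIn φ
    obtain ⟨T, hT, h2⟩ := Fml.exists_varsIn ψ
    exact ⟨S ∪ T, hS.union hT, h1.mono Set.subset_union_left, h2.mono Set.subset_union_right⟩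
  | .dia φ => Fml.exists_varsIn φ
  | .box φ => Fml.exists_varsIn φ

theorem val_restr {W : Type u} (D : Set W → Set W) (θ : ℕ → Set W) (S : Set ℕ) :
    ∀ φ : Fml, φ.VarsIn S → φ.val D (restr S θ) = φ.val D θ
  | .lit b n, h => by
    have h' : n ∈ S := h
    simp only [Fml.val, litVal, restr, if_pos h']
  | .bot, _ => rfl
  | .top, _ => rfl
  | .and φ ψ, h => by simp only [Fml.val, val_restr D θ S φ h.1, val_restr D θ S ψ h.2]
  | .or φ ψ, h => by simp only [Fml.val, val_restr D θ S φ h.1, val_restr D θ S ψ h.2]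
  | .dia φ, h => by simp only [Fml.val, val_restr D θ S φ h]
  | .box φ, h => by simp only [Fml.val, val_restr D θ S φ h]

/-- Replace the variables outside `S` by `⊥`. -/
noncomputable def Fml.cut (S : Set ℕ) : Fml → Fml
  | .lit b n => open Classical in if n ∈ S then .lit b n else if b = true then .bot else .top
  | .bot => .bot
  | .top => .top
  | .and φ ψ => .and (φ.cut S) (ψ.cut S)
  | .or φ ψ => .or (φ.cut S) (ψ.cut S)
  | .dia φ => .dia (φ.cut S)
  | .box φ => .box (φ.cut S)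

theorem cut_positive (P S : Set ℕ) : ∀ φ : Fml, φ.Positive P → (φ.cut S).Positive P
  | .lit b n, h => by
    by_cases h1 : n ∈ S
    · simp only [Fml.cut, if_pos h1]
      exact h
    · cases b <;> simp [Fml.cut, h1, Fml.Positive]
  | .bot, _ => trivial
  | .top, _ => trivial
  | .and φ ψ, h => ⟨cut_positive P S φ h.1, cut_positive P S ψ h.2⟩
  | .or φ ψ, h => ⟨cut_positive P S φ h.1, cut_positive P S ψ h.2⟩
  | .dia φ, h => cut_positive P S φ h
  | .box φ, h => cut_positive P S φ h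

theorem cut_val {W : Type u} (D : Set W → Set W) (θ : ℕ → Set W) (S : Set ℕ) :
    ∀ φ : Fml, (φ.cut S).val D θ = φ.val D (restr S θ)
  | .lit b n => by
    by_cases h1 : n ∈ S
    · simp only [Fml.cut, if_pos h1, Fml.val, litVal, restr]
    · cases b <;> simp [Fml.cut, h1, Fml.val, litVal, restr]
  | .bot => rfl
  | .top => rfl
  | .and φ ψ => by simp only [Fml.cut, Fml.val, cut_val D θ S φ, cut_val D θ S ψ]
  | .or φ ψ => by simp only [Fml.cut, Fml.val, cut_val D θ S φ, cut_val D θ S ψ]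
  | .dia φ => by simp only [Fml.cut, Fml.val, cut_val D θ S φ]
  | .box φ => by simp only [Fml.cut, Fml.val, cut_val D θ S φ]

section Frame

variable {W : Type u} (D : Set W → Set W)

theorem exists_conj (P : Set ℕ) {ι : Type u} [Finite ι] (f : ι → Fml)
    (hf : ∀ i, (f i).Positive P) :
    ∃ α : Fml, α.Positive P ∧
      ∀ (θ : ℕ → Set W) (w : W), w ∈ α.val D θ ↔ ∀ i, w ∈ (f i).val D θ := by
  classical
  cases nonempty_fintype ι
  have h : ∀ l : List ι, ∃ α : Fml, α.Positive P ∧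
      ∀ (θ : ℕ → Set W) (w : W), w ∈ α.val D θ ↔ ∀ i ∈ l, w ∈ (f i).val D θ := by
    intro l
    induction l with
    | nil => exact ⟨.top, trivial, fun θ w => by simp [Fml.val]⟩
    | cons i l ih =>
      obtain ⟨α, h1, h2⟩ := ih
      refine ⟨.and (f i) α, ⟨hf i, h1⟩, fun θ w => ?_⟩
      rw [List.forall_mem_cons, ← h2]
      exact Iff.rfl
  obtain ⟨α, h1, h2⟩ := h (Finset.univ : Finset ι).toList
  exact ⟨α, h1, fun θ w => by rw [h2]; simp⟩

theorem exists_disj (P : Set ℕ) {ι : Type u} [Finite ι] (f : ι → Fml)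
    (hf : ∀ i, (f i).Positive P) :
    ∃ α : Fml, α.Positive P ∧
      ∀ (θ : ℕ → Set W) (w : W), w ∈ α.val D θ ↔ ∃ i, w ∈ (f i).val D θ := by
  classical
  cases nonempty_fintype ι
  have h : ∀ l : List ι, ∃ α : Fml, α.Positive P ∧
      ∀ (θ : ℕ → Set W) (w : W), w ∈ α.val D θ ↔ ∃ i ∈ l, w ∈ (f i).val D θ := by
    intro l
    induction l with
    | nil => exact ⟨.bot, trivial, fun θ w => by simp [Fml.val]⟩
    | cons i l ih =>
      obtain ⟨α, h1, h2⟩ := ih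
      refine ⟨.or (f i) α, ⟨hf i, h1⟩, fun θ w => ?_⟩
      have e : w ∈ (Fml.or (f i) α).val D θ ↔ w ∈ (f i).val D θ ∨ w ∈ α.val D θ := Iff.rfl
      rw [e, h2]
      simp
  obtain ⟨α, h1, h2⟩ := h (Finset.univ : Finset ι).toList
  exact ⟨α, h1, fun θ w => by rw [h2]; simp⟩

variable (hD : ∀ X Y : Set W, X ⊆ Y → D X ⊆ D Y)

/-- Inclusion of positive theories. -/
def Incl (P : Set ℕ) (θ₁ θ₂ : ℕ → Set W) (w₁ w₂ : W) : Prop :=
  ∀ ψ : Fml, ψ.Positive P → w₁ ∈ ψ.val D θ₁ → w₂ ∈ ψ.val D θ₂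

include hD in
/-- Inclusion of positive theories is a directed bisimulation on a finite frame. -/
theorem incl_directed [Finite W] (P : Set ℕ) (θ₁ θ₂ : ℕ → Set W) :
    IsDirectedBisimulation P D θ₁ D θ₂ (Incl D P θ₁ θ₂) := by
  classical
  refine ⟨⟨?_, ?_⟩, ?_⟩
  · rintro X w₂ ⟨w₁, hw₁, hZ⟩
    -- a positive formula true on `X` and false outside the image of `X`
    by_contra hcon
    have h1 : ∀ (v₁ : X) (v₂ : {v // v ∉ img (Incl D P θ₁ θ₂) X}), ∃ ψ : Fml, ψ.Positive P ∧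
        (v₁ : W) ∈ ψ.val D θ₁ ∧ (v₂ : W) ∉ ψ.val D θ₂ := by
      intro v₁ v₂
      by_contra h
      push Not at h
      exact v₂.2 ⟨v₁, v₁.2, h⟩
    choose f hf1 hf2 hf3 using h1
    have h2 : ∀ v₁ : X, ∃ α : Fml, α.Positive P ∧ ∀ (θ : ℕ → Set W) (w : W),
        w ∈ α.val D θ ↔ ∀ i, w ∈ (f v₁ i).val D θ :=
      fun v₁ => exists_conj D P (f v₁) (hf1 v₁)
    choose g hg1 hg2 using h2
    obtain ⟨α, hα1, hα2⟩ := exists_disj D P g hg1
    have h3 : X ⊆ α.val D θ₁ := by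
      intro v₁ hv₁
      rw [hα2]
      refine ⟨⟨v₁, hv₁⟩, ?_⟩
      rw [hg2]
      exact fun i => hf2 ⟨v₁, hv₁⟩ i
    have h4 : α.val D θ₂ ⊆ img (Incl D P θ₁ θ₂) X := by
      intro v₂ hv₂
      by_contra hn
      rw [hα2] at hv₂
      obtain ⟨v₁, hv₁⟩ := hv₂
      rw [hg2] at hv₁
      exact hf3 v₁ ⟨v₂, hn⟩ (hv₁ ⟨v₂, hn⟩)
    have h5 : w₂ ∈ (Fml.dia α).val D θ₂ := hZ (.dia α) hα1 (hD _ _ h3 hw₁)
    exact hcon (hD _ _ h4 h5)
  · rintro X w₁ ⟨w₂, hw₂, hZ⟩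
    by_contra hcon
    have h1 : ∀ (v₁ : {v // v ∉ img (fun w v => Incl D P θ₁ θ₂ v w) X}) (v₂ : X),
        ∃ ψ : Fml, ψ.Positive P ∧ (v₁ : W) ∈ ψ.val D θ₁ ∧ (v₂ : W) ∉ ψ.val D θ₂ := by
      intro v₁ v₂
      by_contra h
      push Not at h
      exact v₁.2 ⟨v₂, v₂.2, h⟩
    choose f hf1 hf2 hf3 using h1
    have h2 : ∀ v₁ : {v // v ∉ img (fun w v => Incl D P θ₁ θ₂ v w) X},
        ∃ α : Fml, α.Positive P ∧ ∀ (θ : ℕ → Set W) (w : W),
        w ∈ α.val D θ ↔ ∀ i, w ∈ (f v₁ i).val D θ :=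
      fun v₁ => exists_conj D P (f v₁) (hf1 v₁)
    choose g hg1 hg2 using h2
    obtain ⟨α, hα1, hα2⟩ := exists_disj D P g hg1
    have h3 : (α.val D θ₁)ᶜ ⊆ img (fun w v => Incl D P θ₁ θ₂ v w) X := by
      intro v₁ hv₁
      by_contra hn
      apply hv₁
      rw [hα2]
      refine ⟨⟨v₁, hn⟩, ?_⟩
      rw [hg2]
      exact fun i => hf2 ⟨v₁, hn⟩ i
    have h4 : X ⊆ (α.val D θ₂)ᶜ := by
      intro v₂ hv₂ hv
      rw [hα2] at hv
      obtain ⟨v₁, hv₁⟩ := hv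
      rw [hg2] at hv₁
      exact hf3 v₁ ⟨v₂, hv₂⟩ (hv₁ ⟨v₂, hv₂⟩)
    have h5 : w₁ ∈ (Fml.box α).val D θ₁ := fun h => hcon (hD _ _ h3 h)
    have h6 : w₂ ∈ (Fml.box α).val D θ₂ := hZ (.box α) hα1 h5
    exact h6 (hD _ _ h4 hw₂)
  · rintro b n hb w₂ ⟨w₁, hw₁, hZ⟩
    exact hZ (.lit b n) hb hw₁

include hD in
/-- Positive formulas are preserved by directed bisimulations. -/
theorem positive_preserved (P : Set ℕ) (θ₁ θ₂ : ℕ → Set W) (Z : W → W → Prop)
    (hZ : IsDirectedBisimulation P D θ₁ D θ₂ Z) :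
    ∀ ψ : Fml, ψ.Positive P → img Z (ψ.val D θ₁) ⊆ ψ.val D θ₂
  | .lit b n, h => hZ.2 b n h
  | .bot, _ => by
    rintro w ⟨v, hv, -⟩
    exact hv.elim
  | .top, _ => fun w _ => trivial
  | .and φ ψ, h => by
    rintro w ⟨v, hv, hvw⟩
    exact ⟨positive_preserved P θ₁ θ₂ Z hZ φ h.1 ⟨v, hv.1, hvw⟩,
      positive_preserved P θ₁ θ₂ Z hZ ψ h.2 ⟨v, hv.2, hvw⟩⟩
  | .or φ ψ, h => by
    rintro w ⟨v, hv | hv, hvw⟩
    · exact Or.inl (positive_preserved P θ₁ θ₂ Z hZ φ h.1 ⟨v, hv, hvw⟩)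
    · exact Or.inr (positive_preserved P θ₁ θ₂ Z hZ ψ h.2 ⟨v, hv, hvw⟩)
  | .dia φ, h => fun w hw =>
    hD _ _ (positive_preserved P θ₁ θ₂ Z hZ φ h) (hZ.1.1 _ hw)
  | .box φ, h => by
    rintro w ⟨v, hv, hvw⟩ hw
    apply hv
    have h1 := hZ.1.2 (φ.val D θ₂)ᶜ ⟨w, hw, hvw⟩
    refine hD _ _ ?_ h1
    rintro v' ⟨w', hw', hvw'⟩ hv'
    exact hw' (positive_preserved P θ₁ θ₂ Z hZ φ h ⟨v', hv', hvw'⟩)

end Frame

/-- For every finite neighbourhood frame `(W, D)`, every set `P` of variables (in particular every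
finite tuple) and every formula `φ`: `φ` is equivalent in the frame to some `P`-positive formula if
and only if `φ` is preserved under every `P`-directed bisimulation between any two models on the
frame. -/
theorem result (W : Type u) [Finite W] (D : Set W → Set W)
    (hD : ∀ X Y : Set W, X ⊆ Y → D X ⊆ D Y) (P : Set ℕ) (φ : Fml) :
    (∃ α : Fml, α.Positive P ∧ EquivIn D φ α) ↔
      ∀ (θ₁ θ₂ : ℕ → Set W) (Z : W → W → Prop),
        IsDirectedBisimulation P D θ₁ D θ₂ Z → img Z (φ.val D θ₁) ⊆ φ.val D θ₂ := by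
  classical
  constructor
  · rintro ⟨α, hα, he⟩ θ₁ θ₂ Z hZ
    rw [he θ₁, he θ₂]
    exact positive_preserved D hD P θ₁ θ₂ Z hZ α hα
  · intro h
    obtain ⟨S, hS, hφS⟩ := Fml.exists_varsIn φ
    -- valuations supported in `S`
    let V : Type u := {θ : ℕ → Set W // ∀ n, n ∉ S → θ n = ∅}
    have : Finite S := hS.to_subtype
    have hV : Finite V := by
      refine Finite.of_injective (β := S → Set W) (fun θ s => θ.1 s) ?_
      intro θ θ' he
      apply Subtype.ext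
      funext n
      by_cases hn : n ∈ S
      · exact congrFun he ⟨n, hn⟩
      · rw [θ.2 n hn, θ'.2 n hn]
    let A : Type u := {x : V × W // x.2 ∈ φ.val D x.1.1}
    let B : Type u := {x : V × W // x.2 ∉ φ.val D x.1.1}
    have h1 : ∀ (a : A) (b : B), ∃ ψ : Fml, ψ.Positive P ∧
        a.1.2 ∈ ψ.val D a.1.1.1 ∧ b.1.2 ∉ ψ.val D b.1.1.1 := by
      intro a b
      by_contra hcon
      push Not at hcon
      exact b.2 (h a.1.1.1 b.1.1.1 _ (incl_directed D hD P a.1.1.1 b.1.1.1)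
        ⟨a.1.2, a.2, hcon⟩)
    choose f hf1 hf2 hf3 using h1
    have h2 : ∀ a : A, ∃ α : Fml, α.Positive P ∧ ∀ (θ : ℕ → Set W) (w : W),
        w ∈ α.val D θ ↔ ∀ i, w ∈ (f a i).val D θ :=
      fun a => exists_conj D P (f a) (hf1 a)
    choose g hg1 hg2 using h2
    obtain ⟨α, hα1, hα2⟩ := exists_disj D P g hg1
    refine ⟨α.cut S, cut_positive P S α hα1, fun θ => ?_⟩
    rw [cut_val, ← val_restr D θ S φ hφS]
    have hr : ∀ n, n ∉ S → restr S θ n = ∅ := by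
      intro n hn
      simp only [restr, if_neg hn]
    ext w
    rw [hα2]
    constructor
    · intro hw
      refine ⟨⟨(⟨restr S θ, hr⟩, w), hw⟩, ?_⟩
      rw [hg2]
      exact fun i => hf2 ⟨(⟨restr S θ, hr⟩, w), hw⟩ i
    · rintro ⟨a, ha⟩
      rw [hg2] at ha
      by_contra hn
      exact hf3 a ⟨(⟨restr S θ, hr⟩, w), hn⟩ (ha ⟨(⟨restr S θ, hr⟩, w), hn⟩)

end Pool.Agent.Results.MP_5daced_lc.DirectedBisimulation
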